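import Mathlib

namespace Pool.Agent.Results.MP_9bce75_nt.Counter

/-- number of distinct sums of non-empty sets of proper divisors -/
def a (n : ℕ) : ℕ :=
  (((Nat.properDivisors n).powerset.erase ∅).image fun S => ∑ d ∈ S, d).card

theorem pd : Nat.properDivisors 1652 = [1, 2, 4, 7, 14, 28, 59, 118, 236, 413, 826].toFinset := by
  decide +kernel

def dp : List ℕ → ℕ
  | [] => 1
  | x :: l => dp l ||| dp l <<< x

theorem dp_spec (l : List ℕ) (hl : l.Nodup) (k : ℕ) :
    (∃ S ⊆ l.toFinset, ∑ d ∈ S, d = k) ↔ (dp l).testBit k := by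
  induction l generalizing k with
  | nil =>
    simp only [List.toFinset_nil, Finset.subset_empty, exists_eq_left, Finset.sum_empty, dp]
    rw [Nat.testBit_one_eq_true_iff_self_eq_zero, eq_comm]
  | cons x l ih =>
    rw [List.nodup_cons] at hl
    have hx : x ∉ l.toFinset := by simpa using hl.1
    simp only [dp, Nat.testBit_or, Nat.testBit_shiftLeft, Bool.or_eq_true, Bool.and_eq_true,
      decide_eq_true_eq, ← ih hl.2, List.toFinset_cons]
    constructor
    · rintro ⟨S, hS, rfl⟩
      by_cases h : x ∈ S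
      · refine Or.inr ⟨Finset.single_le_sum (f := fun d => d) (fun _ _ => Nat.zero_le _) h,
          S.erase x, Finset.subset_insert_iff.1 hS, ?_⟩
        rw [← Finset.add_sum_erase S _ h]; omega
      · exact Or.inl ⟨S, (Finset.subset_insert_iff_of_notMem h).1 hS, rfl⟩
    · rintro (⟨S, hS, rfl⟩ | ⟨h, S, hS, e⟩)
      · exact ⟨S, hS.trans (Finset.subset_insert _ _), rfl⟩
      · refine ⟨insert x S, Finset.insert_subset_insert _ hS, ?_⟩
        rw [Finset.sum_insert fun hh => hx (hS hh), e]; omega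

def cnt (D n : ℕ) : ℕ := Nat.rec 0 (fun i c => cond (D.testBit (i + 1)) (c + 1) c) n

theorem cnt_eq (D n : ℕ) :
    ((Finset.range n).filter fun i => D.testBit (i + 1)).card = cnt D n := by
  induction n with
  | zero => rfl
  | succ n ih =>
    have : cnt D (n + 1) = cond (D.testBit (n + 1)) (cnt D n + 1) (cnt D n) := rfl
    rw [this, Finset.range_add_one, Finset.filter_insert]
    cases D.testBit (n + 1)
    · simp [ih]
    · simp [ih]

theorem gen (n D N : ℕ) (h2 : D < 2 ^ N)
    (h3 : ∀ k, (∃ S ⊆ Nat.properDivisors n, ∑ d ∈ S, d = k) ↔ D.testBit k) : a n = cnt D N := by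
  rw [← cnt_eq]
  unfold a
  rw [← Finset.card_image_of_injective
    ((Finset.range N).filter fun i => D.testBit (i + 1)) (add_left_injective 1)]
  refine congrArg Finset.card (Finset.ext fun k => ?_)
  simp only [Finset.mem_image, Finset.mem_erase, Finset.mem_powerset, Finset.mem_filter,
    Finset.mem_range]
  constructor
  · rintro ⟨S, ⟨h0, hS⟩, rfl⟩
    have hb := (h3 _).1 ⟨S, hS, rfl⟩
    have hp : 0 < ∑ d ∈ S, d := Finset.sum_pos
      (fun d hd => Nat.pos_of_mem_properDivisors (hS hd)) (Finset.nonempty_iff_ne_empty.2 h0)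
    have hl : ∑ d ∈ S, d < N := by
      by_contra hh
      rw [Nat.testBit_lt_two_pow (h2.trans_le (Nat.pow_le_pow_right (by norm_num)
        (not_lt.1 hh)))] at hb
      exact absurd hb (by decide)
    refine ⟨∑ d ∈ S, d - 1, ⟨by omega, ?_⟩, by omega⟩
    rwa [Nat.sub_add_cancel hp]
  · rintro ⟨i, ⟨-, hi⟩, rfl⟩
    obtain ⟨S, hS, e⟩ := (h3 _).2 hi
    refine ⟨S, ⟨?_, hS⟩, e⟩
    rintro rfl
    simp at e

theorem h1 : cnt (dp [1, 2, 4, 7, 14, 28, 59, 118, 236, 413, 826]) 1710 = 1652 := by
  decide +kernel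

theorem h2 : dp [1, 2, 4, 7, 14, 28, 59, 118, 236, 413, 826] < 2 ^ 1710 := by decide +kernel

theorem result : a 1652 = 1652 ∧ ¬ Nat.Perfect 1652 := by
  refine ⟨(gen 1652 _ 1710 h2 fun k => ?_).trans h1, fun h => ?_⟩
  · rw [pd]
    exact dp_spec _ (by decide) k
  · have := h.1
    rw [pd] at this
    revert this
    decide +kernel

end Pool.Agent.Results.MP_9bce75_nt.Counter
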